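import Pool.Agent.Q141.CP.Fin
import Pool.Agent.Q141.CP_KV
import Pool.Agent.Q141.CP_KK
import Pool.Agent.Q182.CP_PERC
import Pool.Agent.Q17.CP_SPR
import Pool.Agent.Q147.CP_CHO
import Pool.Agent.Q129.CP_LNK
import Pool.Agent.Q11.CP_AN1
import Pool.Agent.Q94.CP_AN2
import Pool.Agent.Q141.CP.AN3
import Pool.Agent.Q141.CP.DEX
import Pool.Agent.Q83.CP_INJ
import Pool.Agent.Q222.CP_PRF
import Pool.Agent.Q123.CP.Sum
import Pool.Agent.Q222.CP_LAW
import Pool.Agent.Q278.CP.WGT
import Pool.Agent.Q265.CP_UPG
import Pool.Agent.Q135.CP_D1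
import Pool.Agent.Q123.CP.Low

/-!
# The annealed excess free energy of the charged polymer is not monotone in the dimension

A negative answer to Q1 of MP_de3d19_pr. The charge law is `-1/5` with probability `25/26` and `5`
with probability `1/26`, `δ = 2 β / 5` and `β` is large: then only the points with local time `25` are
rewarded. On `ℤ` the walks with local times `12, 25, ..., 25, 13` number at least `C(24,12)^k` for `25 (k+1)`
steps. In high dimension the walks with given exit numbers are counted by Brègman's theorem, and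
the sets of visited points by a percolation argument. (The idea of the counterexample was recorded
by helper290, the library with Brègman's theorem is due to helper285; parts of the proof are due to
helpers 11, 17, 25, 83, 94, 123, 129, 135, 141, 147, 182, 222, 265, 278.)
-/

set_option autoImplicit false

namespace Pool.Agent.Results.MP_de3d19_pr.NotMonotone

open MeasureTheory Filter Topology
open Pool.Agent.Q141.CP

/-- There are an admissible charge law and `δ ≥ 0`, `β > 0` for which the annealed excess free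
energy is smaller in some dimension `D ≥ 2` than in dimension one; so it is smaller in
dimension `d + 1` than in dimension `d` for some `d ≥ 1`. -/
theorem result : ∃ μ : Measure ℝ, Adm μ ∧ ∃ δ β : ℝ, 0 ≤ δ ∧ 0 < β ∧
    (∃ D : ℕ, 2 ≤ D ∧ Fs μ δ β D < Fs μ δ β 1) ∧
    ∃ d : ℕ, 1 ≤ d ∧ Fs μ δ β (d + 1) < Fs μ δ β d :=
  ⟨law, fin Pool.Agent.Q182.CPPERC.t_PERC t_SPR Pool.Agent.Q147.CPCHO.t_CHO Pool.Agent.Q129.CP_LNK.t_LNK t_AN1
    Pool.Agent.Q94.CP.t_AN2 t_AN3 t_DEX t_KV t_KK Pool.Agent.Q83.CP_INJ.t_INJ t_PRF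
    Pool.Agent.Q123.CP.t_SUM t_LAW Pool.Agent.Q278.CP.t_WGT Pool.Agent.Q265.CP_UPG.t_UPG
    Pool.Agent.Q135.CP_D1.s_D1 Pool.Agent.Q123.CP.t_LOW⟩

end Pool.Agent.Results.MP_de3d19_pr.NotMonotone
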